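import Pool.Agent.Lib.MP_3029eb_ag.H6Div
import Pool.Agent.Lib.MP_3029eb_ag.H6Exist

/-!
Sequences of local quadratic transforms along arbitrary valuation rings: a noetherian local domain
with regular generic formal fibre (for instance any quasi-excellent local domain) becomes regular
along every divergent sequence, in particular along every discrete rank-one valuation.
-/

open scoped TensorProduct

namespace Pool.Agent.Results.MP_3029eb_ag.DivergentQuadratic

open Pool.Agent.Lib.MP_3029eb_ag

/-- Let `R` be a noetherian local domain with fraction field `K` all of whose generic formal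
fibre's local rings are regular (every quasi-excellent local domain has this property), and let `V`
be any valuation ring of `K` dominating `R`, `V ≠ K`. Then

1. the sequence of quadratic transforms `R = A 0, A 1, A 2, ...` of `R` along `V` exists
   (`x n` denotes an element of least value of the maximal ideal of `A n`);
2. if `V` is a discrete valuation ring then the sequence is divergent: the values of the products
   `x 0 * ... * x (n - 1)` are cofinal in the value group;
3. whenever the sequence is divergent (for `V` of arbitrary value group, discrete or not), all but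
   finitely many `A n` are regular, and so `R` has a finitely generated overring inside `V` which
   is regular at the centre of `V`. -/
theorem result
    (R : Type) [CommRing R] [IsDomain R] [IsNoetherianRing R] [IsLocalRing R]
    (K : Type) [Field K] [Algebra R K] [IsFractionRing R K]
    (hR : ∀ (Q : Ideal (K ⊗[R] AdicCompletion (IsLocalRing.maximalIdeal R) R)) [Q.IsPrime],
      IsRegularLocalRing (Localization.AtPrime Q))
    (V : ValuationSubring K) (hVtop : V ≠ ⊤)
    (hRV : ∀ r : R, algebraMap R K r ∈ V)
    (hdom : ∀ r : R, r ∈ IsLocalRing.maximalIdeal R ↔ V.valuation (algebraMap R K r) < 1) :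
    (∃ (A : ℕ → Subring K) (x : ℕ → K), A 0 = (algebraMap R K).range ∧
      ∀ n, IsQuadTransform V (A n) (A (n + 1)) (x n)) ∧
    ∀ (A : ℕ → Subring K) (x : ℕ → K), A 0 = (algebraMap R K).range →
      (∀ n, IsQuadTransform V (A n) (A (n + 1)) (x n)) →
      (IsDiscreteValuationRing V → ∀ z : K, z ≠ 0 →
        ∃ n, V.valuation (∏ i ∈ Finset.range n, x i) < V.valuation z) ∧
      ((∀ z : K, z ≠ 0 → ∃ n, V.valuation (∏ i ∈ Finset.range n, x i) < V.valuation z) →
        (∃ N, ∀ n, N ≤ n → IsRegularLocalRing (A n)) ∧
        ∃ B : Subalgebra R K, B.FG ∧ (∀ b : B, (b : K) ∈ V) ∧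
          ∃ P : Ideal B, ∃ (_ : P.IsPrime),
            (∀ b : B, b ∈ P ↔ V.valuation (b : K) < 1) ∧
            IsRegularLocalRing (Localization.AtPrime P)) := by
  have hinj : Function.Injective (algebraMap R K) := IsFractionRing.injective R K
  let ρ : R →+* V := (algebraMap R K).codRestrict V.toSubring hRV
  have hρl : IsLocalHom ρ := by
    refine ⟨fun r hr => ?_⟩
    by_contra hcon
    have h1 := (hdom r).1 ((IsLocalRing.mem_maximalIdeal _).2 hcon)
    have h2 := (V.valuation_eq_one_iff (ρ r)).1 hr
    exact h1.ne h2
  have hρi : Function.Injective ρ := fun a b hab => hinj (congrArg Subtype.val hab)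
  have hrange : (algebraMap R K).range = (V.subtype.comp ρ).range := rfl
  have hD : DomBy V (algebraMap R K).range :=
    ⟨R, inferInstance, inferInstance, inferInstance, ρ, hρl, hρi, hrange⟩
  constructor
  · refine exists_quad_sequence V hVtop _ (fun z => ?_) hD
    obtain ⟨a, b, hb, rfl⟩ := IsFractionRing.div_surjective (A := R) z
    refine ⟨_, ⟨a, rfl⟩, _, ⟨b, rfl⟩, ?_, rfl⟩
    rw [Ne, map_eq_zero_iff _ hinj]
    exact nonZeroDivisors.ne_zero hb
  · intro A x hA0 hA
    refine ⟨fun hdvr z hz => dvr_divergent V A x hA z hz, fun hdiv => ?_⟩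
    obtain ⟨N, hN⟩ := divergent_aux R K hR V hRV hdom A x hA0 hA hdiv
    have h0 : ∃ (R : Type) (_ : CommRing R) (_ : IsNoetherianRing R) (_ : IsLocalRing R)
        (φ : R →+* V), IsLocalHom φ ∧ Function.Injective φ ∧ A 0 = (V.subtype.comp φ).range := by
      rw [hA0]
      exact hD
    refine ⟨⟨N, fun n hn => seq_reg V A x hA h0 N hN n hn⟩, ?_⟩
    refine LU_to_subalgebra V hRV ?_
    rw [← hA0]
    exact LU_of_seq V A x hA h0 N hN

end Pool.Agent.Results.MP_3029eb_ag.DivergentQuadratic
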