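import Pool.Agent.Lib.MP_3029eb_ag.ImpResult
import Pool.Agent.Lib.MP_3029eb_ag.ImpSub

/-!
Embedded local uniformization along valuations of rank one which become Abhyankar valuations of
the completion modulo the implicit prime ideal.
-/

namespace Pool.Agent.Results.MP_3029eb_ag.ImplicitPrimeRankOne

/-- The generic formal fibre of the local domain `R` is regular: the localization of the
completion of `R` at every prime ideal lying over the zero ideal of `R` is a regular local ring.
Every quasi-excellent local domain has this property, by the definition of quasi-excellence. -/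
def RegularGenericFormalFibre (R : Type) [CommRing R] [IsLocalRing R] : Prop :=
  ∀ (Q : Ideal (AdicCompletion (IsLocalRing.maximalIdeal R) R)) [Q.IsPrime],
    (∀ a : R, algebraMap R (AdicCompletion (IsLocalRing.maximalIdeal R) R) a ∈ Q → a = 0) →
      IsRegularLocalRing (Localization.AtPrime Q)

/-- The implicit ideal of `V` in the completion of `R`: the intersection over all nonzero `d` in
`R` of the ideals generated by the elements of `R` whose value is at least the value of `d`. -/
noncomputable def implicitIdeal (R K : Type) [CommRing R] [IsLocalRing R] [Field K] [Algebra R K]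
    (V : ValuationSubring K) : Ideal (AdicCompletion (IsLocalRing.maximalIdeal R) R) :=
  ⨅ d : {d : R // d ≠ 0}, Ideal.span
    (algebraMap R (AdicCompletion (IsLocalRing.maximalIdeal R) R) ''
      {a : R | V.valuation (algebraMap R K a) ≤ V.valuation (algebraMap R K d)})

/-- There are `r` nonzero elements of the field `K` with rationally independent values and `s`
elements of `V` whose residues are algebraically independent over the residue field of `R`, and
the dimension of the completion of `R` modulo the implicit ideal of `V` is at most `r + s`. -/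
def IsImplicitlyAbhyankar (R K : Type) [CommRing R] [IsLocalRing R] [Field K] [Algebra R K]
    (V : ValuationSubring K) (r s : ℕ) : Prop :=
  ∃ (x : Fin r → K) (y : Fin s → K),
    (∀ i, x i ≠ 0) ∧
    (∀ m : Fin r → ℤ, V.valuation (∏ i, x i ^ m i) = 1 → m = 0) ∧
    (∀ j, y j ∈ V) ∧
    (∀ p : MvPolynomial (Fin s) R, V.valuation (MvPolynomial.aeval y p) < 1 →
      ∀ m, MvPolynomial.coeff m p ∈ IsLocalRing.maximalIdeal R) ∧
    ringKrullDim (AdicCompletion (IsLocalRing.maximalIdeal R) R ⧸ implicitIdeal R K V) ≤
      ((r + s : ℕ) : WithBot ℕ∞)

/-- The element `f` of `K` is a unit of the localization of `A` at `P` times the Laurent monomial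
`∏ u i ^ m i`. -/
def IsUnitMulMonomial {R K : Type} [CommRing R] [Field K] [Algebra R K] (A : Subalgebra R K)
    (P : Ideal A) {r : ℕ} (u : Fin r → A) (m : Fin r → ℤ) (f : K) : Prop :=
  ∃ a b : A, a ∉ P ∧ b ∉ P ∧ f * b = a * ∏ i, (u i : K) ^ m i

/-- Let `R` be a noetherian local domain with fraction field `K` and regular generic formal fibre
(for instance any quasi-excellent local domain).  Let `V` be a valuation ring of `K` of rank one
dominating `R`, with `r ≥ 1` elements of rationally independent values and `s` elements with
residues algebraically independent over the residue field of `R`, and suppose that the completion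
of `R` modulo the implicit ideal of `V` has dimension at most `r + s`.  Then there is a number `h`
such that for every finite set `F` of nonzero elements of `K` there is a finitely generated
subalgebra `A` of `K` in `V` whose localization `A_P` at the centre `P` of `V` is regular of
dimension `r + h`, with a regular system of parameters `u 1, ..., u r, w 1, ..., w h` in `A` such
that the values of the `u i` are rationally independent, every element of `F` is a unit of `A_P`
times a Laurent monomial in the `u i` (a monomial, if the element lies in `V`), and every element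
of `A` is a fraction of elements of `R` whose denominator is a unit of `A_P` times a monomial in
the `u i`. -/
theorem result :
    ∀ (R : Type) [CommRing R] [IsDomain R] [IsNoetherianRing R] [IsLocalRing R]
      (K : Type) [Field K] [Algebra R K] [IsFractionRing R K],
      RegularGenericFormalFibre R →
      ∀ (V : ValuationSubring K),
        (∀ a b : K, a ≠ 0 → V.valuation b < 1 → ∃ n : ℕ, V.valuation (b ^ n) ≤ V.valuation a) →
        (∀ a : R, algebraMap R K a ∈ V) →
        (∀ a : R, a ∈ IsLocalRing.maximalIdeal R ↔ V.valuation (algebraMap R K a) < 1) →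
        ∀ r s : ℕ, 0 < r → IsImplicitlyAbhyankar R K V r s →
        ∃ h : ℕ, ∀ F : Finset K, (∀ f ∈ F, f ≠ 0) →
        ∃ A : Subalgebra R K, A.FG ∧ (∀ a : A, (a : K) ∈ V) ∧
          ∃ P : Ideal A, ∃ (_ : P.IsPrime),
            (∀ a : A, a ∈ P ↔ V.valuation (a : K) < 1) ∧
            IsRegularLocalRing (Localization.AtPrime P) ∧
            ringKrullDim (Localization.AtPrime P) = (((r + h : ℕ) : ℕ∞) : WithBot ℕ∞) ∧
            ∃ (u : Fin r → A) (w : Fin h → A),
              IsLocalRing.maximalIdeal (Localization.AtPrime P) =
                Ideal.span ((Set.range fun i => algebraMap A (Localization.AtPrime P) (u i)) ∪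
                  Set.range fun j => algebraMap A (Localization.AtPrime P) (w j)) ∧
              (∀ m : Fin r → ℤ, V.valuation (∏ i, (u i : K) ^ m i) = 1 → m = 0) ∧
              (∀ f ∈ F, ∃ m : Fin r → ℤ,
                IsUnitMulMonomial A P u m f ∧ (f ∈ V → ∀ i, 0 ≤ m i)) ∧
              ∀ z : A, ∃ d e : R, algebraMap R K d * z = algebraMap R K e ∧
                ∃ m : Fin r → ℤ, (∀ i, 0 ≤ m i) ∧
                  IsUnitMulMonomial A P u m (algebraMap R K d) := by
  intro R _ _ _ _ K _ _ _ H V harch hRV hRm r s hr hV
  obtain ⟨x, y, hx0, hx, hyV, hy, hdim⟩ := hV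
  obtain ⟨h, hE⟩ := Pool.Agent.Lib.MP_3029eb_ag.Imp.emb2_imp R K (fun Q _ hQ => H Q hQ) V harch
    hRV hRm r s hr x y hx0 hx hyV hy (implicitIdeal R K V)
    (fun d hd => iInf_le_of_le ⟨d, hd⟩ le_rfl) hdim
  refine ⟨h, fun F hF => ?_⟩
  refine Pool.Agent.Lib.MP_3029eb_ag.Imp.emb2_to_subalgebra V hRV (fun z => ?_) hE F hF
  obtain ⟨⟨a, b⟩, hab⟩ := IsLocalization.surj (nonZeroDivisors R) z
  refine ⟨_, ⟨a, rfl⟩, _, ⟨b, rfl⟩, ?_, hab⟩
  intro h0
  exact nonZeroDivisors.ne_zero b.2 (IsFractionRing.injective R K (by rw [h0, map_zero]))

end Pool.Agent.Results.MP_3029eb_ag.ImplicitPrimeRankOne
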